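import Pool.Agent.Lib.MP_655bfb_lc.Ins.Last

set_option autoImplicit false

/-!
# The cardinality theorem for synchronous automata and relations on words, every alphabet
-/

namespace Pool.Agent.Results.MP_655bfb_lc.Relations

universe z

/-- The columns of a finite family of words `x i` read synchronously: the column at position `t`
holds the letter number `t` of each word, or `none` (the blank) if that word is already finished,
and there are as many columns as the longest word has letters. -/
def columns {α : Type z} {ι : Type} [Fintype ι] (x : ι → List α) : List (ι → Option α) :=
  (List.range (Finset.univ.sup fun i => (x i).length)).map fun t i => (x i)[t]?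

/-- The cardinality theorem for `r`-ary relations `A` on words over an arbitrary alphabet. Suppose
that a finite automaton which reads `n` pairwise distinct `r`-tuples of words synchronously always
outputs at most `n` numbers, one of them the number of the tuples in `A`. Then `A` is recognized by
a finite automaton which reads an `r`-tuple of words synchronously. -/
theorem result :
    ∀ (α : Type z) (r n : ℕ) (A : Set (Fin r → List α)),
      (∃ (k : ℕ) (step : Fin k → (Fin n × Fin r → Option α) → Fin k) (start : Fin k)
          (out : Fin k → Finset ℕ), ∀ x : Fin n → Fin r → List α, Function.Injective x →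
        (out (List.foldl step start (columns fun p : Fin n × Fin r => x p.1 p.2))).card ≤ n ∧
        {i : Fin n | x i ∈ A}.ncard ∈
          out (List.foldl step start (columns fun p : Fin n × Fin r => x p.1 p.2))) →
      ∃ (k : ℕ) (M : DFA (Fin r → Option α) (Fin k)), ∀ x : Fin r → List α,
        x ∈ A ↔ columns x ∈ M.accepts := by
  rintro α r n A ⟨k, step, start, out, hA⟩
  have h := ((MP655Ins.Reg.cls (α := α)).pow r).mainLe
    (C := fun x => out (List.foldl step start (columns fun p : Fin n × Fin r => x p.1 p.2)))
    (fun t _ => MP655Ins.reg_last step start {q | t ∈ out q}) A hA
  have h' : MP655Ins.Reg (fun x : Fin r → List α => x ∈ A) :=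
    (MP655Ins.Reg.cls (α := α)).comp (Unit × Fin r) (Fin r) Prod.snd _ h
  exact h'.toAut

end Pool.Agent.Results.MP_655bfb_lc.Relations
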